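import Mathlib
import Pool.Agent.Y142.ZI.Stm

set_option autoImplicit false

/-!
Task BADRED of project Y142-ZI: no proper subspace is stable under an open subgroup if some
element of the image has characteristic polynomial `(X - 1) Q` with `Q` irreducible.
-/

open Matrix Polynomial Filter Topology
open Pool.Agent.Y142.ZO Pool.Agent.Y142.ZI

namespace Pool.Agent.Y379.ZI

section field
variable {F : Type} [Field F] [CharZero F]

/-- a polynomial `P` with `P(x ^ k) = x` for all roots `x` of `(X - 1) Q` -/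
theorem exists_poly (Q : F[X]) (hQ : Irreducible Q) (h1 : Q.eval 1 ≠ 0) (k : ℕ)
    (hr : ∀ x y : AlgebraicClosure F, aeval x ((X - 1) * Q) = 0 → aeval y ((X - 1) * Q) = 0 →
      x ^ k = y ^ k → x = y) :
    ∃ P : F[X], (X - 1) * Q ∣ P.comp (X ^ k) - X := by
  have : Fact (Irreducible Q) := ⟨hQ⟩
  have hQ0 : Q ≠ 0 := hQ.ne_zero
  have : FiniteDimensional F (AdjoinRoot Q) := (AdjoinRoot.powerBasis hQ0).finite
  set α : AdjoinRoot Q := AdjoinRoot.root Q with hα
  have hαQ : aeval α Q = 0 := by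
    rw [hα, AdjoinRoot.aeval_eq, AdjoinRoot.mk_self]
  have hroot : ∀ φ : AdjoinRoot Q →ₐ[F] AlgebraicClosure F, aeval (φ α) ((X - 1) * Q) = 0 := by
    intro φ
    rw [map_mul, Polynomial.aeval_algHom_apply φ α Q, hαQ, map_zero, mul_zero]
  have htop : IntermediateField.adjoin F {α ^ k} = ⊤ := by
    rw [Field.primitive_element_iff_algHom_eq_of_eval' F (AlgebraicClosure F)
      (fun x => IsAlgClosed.splits _)]
    intro φ ψ h
    have h' : φ α ^ k = ψ α ^ k := by
      have h2 : φ (α ^ k) = ψ (α ^ k) := h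
      rwa [map_pow, map_pow] at h2
    have h3 := hr (φ α) (ψ α) (hroot φ) (hroot ψ) h'
    exact AdjoinRoot.algHom_ext h3
  have hint : IsIntegral F (α ^ k) := IsIntegral.of_finite F _
  have hmem : α ∈ Algebra.adjoin F {α ^ k} := by
    have h4 : (IntermediateField.adjoin F {α ^ k}).toSubalgebra = Algebra.adjoin F {α ^ k} :=
      IntermediateField.adjoin_simple_toSubalgebra_of_isAlgebraic hint.isAlgebraic
    rw [← h4, htop]
    trivial
  rw [Algebra.adjoin_singleton_eq_range_aeval] at hmem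
  obtain ⟨P0, hP0⟩ := hmem
  have hP0' : aeval (α ^ k) P0 = α := hP0
  have hdvd : ∀ R : F[X], aeval α R = 0 → Q ∣ R := by
    intro R hR
    rwa [hα, AdjoinRoot.aeval_eq, AdjoinRoot.mk_eq_zero] at hR
  set M : F[X] := minpoly F (α ^ k) with hM
  have hM1 : M.eval 1 ≠ 0 := by
    intro h0
    have hdvd1 : (X - C (1 : F)) ∣ M := dvd_iff_isRoot.mpr h0
    have hirr : Irreducible M := minpoly.irreducible hint
    have hass : Associated (X - C (1 : F)) M :=
      (irreducible_X_sub_C (1 : F)).associated_of_dvd hirr hdvd1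
    have h5 : aeval (α ^ k) (X - C (1 : F)) = 0 := by
      obtain ⟨c, hc⟩ := hass.symm.dvd
      rw [hc, map_mul, hM, minpoly.aeval, zero_mul]
    have h6 : α ^ k = 1 := by
      rw [map_sub, aeval_X, aeval_C, map_one, sub_eq_zero] at h5
      exact h5
    let φ : AdjoinRoot Q →ₐ[F] AlgebraicClosure F := IsAlgClosed.lift
    have h7 : φ α = 1 := by
      apply hr (φ α) 1 (hroot φ)
      · rw [map_mul, map_sub, aeval_X, map_one, sub_self, zero_mul]
      · rw [← map_pow, h6, map_one, one_pow]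
    apply h1
    have h8 : aeval (φ α) Q = 0 := by
      rw [Polynomial.aeval_algHom_apply φ α Q, hαQ, map_zero]
    rw [h7] at h8
    have h9 : aeval (1 : AlgebraicClosure F) Q = algebraMap F (AlgebraicClosure F) (Q.eval 1) := by
      rw [← Polynomial.aeval_algebraMap_apply_eq_algebraMap_eval, map_one]
    rw [h9] at h8
    exact (map_eq_zero_iff _ (algebraMap F (AlgebraicClosure F)).injective).mp h8
  refine ⟨P0 + C ((1 - P0.eval 1) / M.eval 1) * M, ?_⟩
  have hcop : IsCoprime (X - 1 : F[X]) Q := by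
    have hirr : Irreducible (X - C (1 : F)) := irreducible_X_sub_C 1
    rw [C_1] at hirr
    rw [hirr.coprime_iff_not_dvd]
    intro h
    rw [← C_1, dvd_iff_isRoot] at h
    exact h1 h
  apply hcop.mul_dvd
  · rw [← C_1, dvd_iff_isRoot, IsRoot.def]
    rw [eval_sub, eval_comp, eval_pow, eval_X, one_pow, eval_add, eval_mul, eval_C,
      div_mul_cancel₀ _ hM1]
    ring
  · apply hdvd
    rw [map_sub, aeval_X, Polynomial.aeval_comp, map_pow, aeval_X, map_add, map_mul, hP0', hM,
      minpoly.aeval, mul_zero, add_zero, sub_self]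

end field

section lin
variable {F : Type} [Field F] {V : Type} [AddCommGroup V] [Module F V] [FiniteDimensional F V]

omit [FiniteDimensional F V] in
theorem aeval_mem (f : Module.End F V) (W : Submodule F V) (hW : ∀ w ∈ W, f w ∈ W) (P : F[X]) :
    ∀ w ∈ W, aeval f P w ∈ W := by
  induction P using Polynomial.induction_on' with
  | add p q hp hq =>
    intro w hw
    rw [map_add, LinearMap.add_apply]
    exact W.add_mem (hp w hw) (hq w hw)
  | monomial n a =>
    intro w hw
    rw [aeval_monomial, Module.End.mul_apply, Module.algebraMap_end_apply]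
    apply W.smul_mem
    induction n with
    | zero => exact hw
    | succ n ih =>
      rw [pow_succ', Module.End.mul_apply]
      exact hW _ ih

theorem stable_of_pow (f : Module.End F V) (W : Submodule F V) (k : ℕ)
    (hW : ∀ w ∈ W, (f ^ k) w ∈ W) (P : F[X]) (hP : f.charpoly ∣ P.comp (X ^ k) - X) :
    ∀ w ∈ W, f w ∈ W := by
  have h : aeval (f ^ k) P = f := by
    obtain ⟨R, hR⟩ := hP
    have h2 : aeval f (P.comp (X ^ k) - X) = 0 := by
      rw [hR, map_mul, LinearMap.aeval_self_charpoly, zero_mul]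
    rw [map_sub, aeval_X, Polynomial.aeval_comp, map_pow, aeval_X, sub_eq_zero] at h2
    exact h2
  intro w hw
  have h3 := aeval_mem (f ^ k) W hW P w hw
  rwa [h] at h3

theorem degree_le (f : Module.End F V) (S : Submodule F V) (hS : ∀ w ∈ S, f w ∈ S) (Q : F[X])
    (hQ : Irreducible Q) (u : V) (hu : u ∈ S) (hu0 : u ≠ 0) (hQu : aeval f Q u = 0) :
    Q.natDegree ≤ Module.finrank F S := by
  classical
  let fS : Module.End F S := f.restrict hS
  have hcomp : ∀ (P : F[X]) (x : S), ((aeval fS P x : S) : V) = aeval f P (x : V) := by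
    intro P
    induction P using Polynomial.induction_on' with
    | add p q hp hq =>
      intro x
      rw [map_add, map_add, LinearMap.add_apply, LinearMap.add_apply, Submodule.coe_add, hp, hq]
    | monomial n a =>
      intro x
      rw [aeval_monomial, aeval_monomial, Module.End.mul_apply, Module.End.mul_apply,
        Module.algebraMap_end_apply, Module.algebraMap_end_apply, Submodule.coe_smul]
      congr 1
      induction n with
      | zero => rfl
      | succ n ih =>
        rw [pow_succ', pow_succ', Module.End.mul_apply, Module.End.mul_apply, ← ih]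
        rfl
  have hdvd : Q ∣ fS.charpoly := by
    by_contra hnd
    have hcop : IsCoprime Q fS.charpoly := hQ.coprime_iff_not_dvd.mpr hnd
    obtain ⟨a, b, hab⟩ := hcop
    apply hu0
    have h1 : aeval fS (a * Q + b * fS.charpoly) ⟨u, hu⟩ = ⟨u, hu⟩ := by
      rw [hab, map_one]; rfl
    rw [map_add, map_mul, map_mul, LinearMap.aeval_self_charpoly, mul_zero, add_zero,
      Module.End.mul_apply] at h1
    have h2 : aeval fS Q ⟨u, hu⟩ = 0 := by
      apply Subtype.ext
      rw [hcomp]
      exact hQu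
    rw [h2, map_zero] at h1
    have h3 := congrArg Subtype.val h1
    exact h3.symm
  have h4 := Polynomial.natDegree_le_of_dvd hdvd fS.charpoly_monic.ne_zero
  rwa [LinearMap.charpoly_natDegree] at h4

/-- the two facts on an endomorphism with characteristic polynomial `(X - 1) Q` -/
theorem two_cases (f : Module.End F V) (Q : F[X]) (hQ : Irreducible Q) (h1 : Q.eval 1 ≠ 0)
    (hf : f.charpoly = (X - 1) * Q) :
    Module.finrank F (LinearMap.ker (f - 1)) ≤ 1 ∧
    (∀ W : Submodule F V, (∀ w ∈ W, f w ∈ W) → ¬ W ≤ LinearMap.ker (f - 1) →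
      LinearMap.range (f - 1) ≤ W) := by
  have hmon : ((X - 1 : F[X]) * Q).Monic := hf ▸ f.charpoly_monic
  have hX1 : (X - 1 : F[X]) ≠ 0 := by
    intro h; rw [h, zero_mul] at hmon; exact hmon.ne_zero rfl
  have hdeg : Q.natDegree + 1 = Module.finrank F V := by
    rw [← LinearMap.charpoly_natDegree f, hf, natDegree_mul hX1 hQ.ne_zero]
    have : (X - 1 : F[X]).natDegree = 1 := by rw [← C_1, natDegree_X_sub_C]
    rw [this, add_comm]
  have hrn := LinearMap.finrank_range_add_finrank_ker (f - 1)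
  have hstab : ∀ w ∈ LinearMap.range (f - 1), f w ∈ LinearMap.range (f - 1) := by
    rintro _ ⟨y, rfl⟩
    refine ⟨f y, ?_⟩
    simp [LinearMap.sub_apply]
  have hkill : ∀ w ∈ LinearMap.range (f - 1), aeval f Q w = 0 := by
    rintro _ ⟨y, rfl⟩
    have h2 : aeval f (Q * (X - 1)) = 0 := by
      rw [mul_comm, ← hf, LinearMap.aeval_self_charpoly]
    rw [map_mul, map_sub, aeval_X, map_one] at h2
    have h3 := congrArg (fun φ : Module.End F V => φ y) h2
    simpa using h3
  have hrange : LinearMap.range (f - 1) ≠ ⊥ := by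
    intro h
    have h2 : f - 1 = 0 := LinearMap.range_eq_bot.mp h
    have h3 : f = 1 := sub_eq_zero.mp h2
    have h4 : Q ∣ (X - 1) ^ Module.finrank F V := by
      have h5 : (1 : Module.End F V).charpoly = (X - 1) ^ Module.finrank F V :=
        LinearMap.charpoly_one
      rw [← h5, ← h3, hf]
      exact dvd_mul_left _ _
    have h6 : Q ∣ X - 1 := hQ.prime.dvd_of_dvd_pow h4
    have h7 : Irreducible (X - 1 : F[X]) := by
      have := irreducible_X_sub_C (1 : F); rwa [C_1] at this
    have h8 : Associated Q (X - 1) := hQ.associated_of_dvd h7 h6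
    obtain ⟨c, hc⟩ := h8.symm.dvd
    apply h1
    rw [hc]
    simp
  obtain ⟨u, hu, hu0⟩ := (Submodule.ne_bot_iff _).mp hrange
  have hle := degree_le f (LinearMap.range (f - 1)) hstab Q hQ u hu hu0 (hkill u hu)
  have hker : Module.finrank F (LinearMap.ker (f - 1)) ≤ 1 := by omega
  refine ⟨hker, ?_⟩
  intro W hW hnot
  have hker1 : 0 < Module.finrank F (LinearMap.ker (f - 1)) := by
    have hroot : f.charpoly.IsRoot 1 := by
      rw [hf, IsRoot.def, eval_mul, eval_sub, eval_X, eval_one, sub_self, zero_mul]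
    have hev : Module.End.HasEigenvalue f 1 :=
      (Module.End.hasEigenvalue_iff_isRoot_charpoly f 1).mpr hroot
    obtain ⟨v, hv⟩ := hev.exists_hasEigenvector
    have hv0 := hv.2
    have hv1 := hv.apply_eq_smul
    rw [Module.finrank_pos_iff]
    refine ⟨⟨v, ?_⟩, 0, ?_⟩
    · rw [LinearMap.mem_ker, LinearMap.sub_apply, hv1, one_smul, Module.End.one_apply, sub_self]
    · intro h
      exact hv0 (congrArg Subtype.val h)
  obtain ⟨w, hw, hwn⟩ := Set.not_subset.mp hnot
  have hwn' : (f - 1) w ≠ 0 := fun h => hwn h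
  have hwW : (f - 1) w ∈ W := by
    rw [LinearMap.sub_apply, Module.End.one_apply]
    exact W.sub_mem (hW w hw) hw
  have hle2 := degree_le f (W ⊓ LinearMap.range (f - 1))
    (fun x hx => ⟨hW x hx.1, hstab x hx.2⟩) Q hQ ((f - 1) w) ⟨hwW, ⟨w, rfl⟩⟩ hwn'
    (hkill _ ⟨w, rfl⟩)
  have heq : W ⊓ LinearMap.range (f - 1) = LinearMap.range (f - 1) := by
    apply Submodule.eq_of_le_of_finrank_le inf_le_right
    omega
  rw [← heq]
  exact inf_le_left

end lin

section mat
variable {F : Type} [Field F] {N : ℕ}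

theorem bil_isom (B g : Matrix (Fin N) (Fin N) F) (hg : Isom B g) (x y : Fin N → F) :
    bil B (g *ᵥ x) (g *ᵥ y) = bil B x y := by
  unfold bil
  have h : gᵀ * B * g = B := hg
  conv_rhs => rw [← h]
  rw [← mulVec_mulVec, ← mulVec_mulVec, dotProduct_mulVec x gᵀ, vecMul_transpose]

theorem bil_sub_left (B : Matrix (Fin N) (Fin N) F) (x y z : Fin N → F) :
    bil B (x - y) z = bil B x z - bil B y z := by
  unfold bil; rw [sub_dotProduct]

theorem bil_sub_right (B : Matrix (Fin N) (Fin N) F) (x y z : Fin N → F) :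
    bil B x (y - z) = bil B x y - bil B x z := by
  unfold bil; rw [mulVec_sub, dotProduct_sub]

theorem bil_smul (B : Matrix (Fin N) (Fin N) F) (a b : F) (x y : Fin N → F) :
    bil B (a • x) (b • y) = a * b * bil B x y := by
  unfold bil
  rw [mulVec_smul, smul_dotProduct, dotProduct_smul, smul_eq_mul, smul_eq_mul]; ring

theorem bil_nondeg (B : Matrix (Fin N) (Fin N) F) (hB : B.det ≠ 0) (x : Fin N → F)
    (h : ∀ y, bil B x y = 0) : x = 0 := by
  have h1 : x ᵥ* B = 0 := by
    funext i
    have := h (Pi.single i 1)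
    unfold bil at this
    rw [dotProduct_mulVec, dotProduct_single_one] at this
    exact this
  by_contra hx
  exact hB (exists_vecMul_eq_zero_iff.mp ⟨x, hx, h1⟩)

/-- the orthogonal complement -/
def orth (B : Matrix (Fin N) (Fin N) F) (W : Submodule F (Fin N → F)) :
    Submodule F (Fin N → F) where
  carrier := {x | ∀ w ∈ W, bil B x w = 0}
  add_mem' := by
    intro a b ha hb w hw
    have h1 := ha w hw
    have h2 := hb w hw
    unfold bil at *
    rw [add_dotProduct, h1, h2, add_zero]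
  zero_mem' := by
    intro w _
    unfold bil
    rw [zero_dotProduct]
  smul_mem' := by
    intro c x hx w hw
    have h1 := hx w hw
    unfold bil at *
    rw [smul_dotProduct, h1, smul_zero]

theorem orth_ne_bot (B : Matrix (Fin N) (Fin N) F) (hB : B.det ≠ 0)
    (W : Submodule F (Fin N → F)) (hW : W ≠ ⊤) : orth B W ≠ ⊥ := by
  obtain ⟨φ, hφ, hle⟩ := Submodule.exists_le_ker_of_lt_top W (lt_top_iff_ne_top.mpr hW)
  set a : Fin N → F := fun i => φ (Pi.single i 1) with ha
  have hφa : ∀ y, φ y = a ⬝ᵥ y := by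
    intro y
    have h1 : y = ∑ i, y i • (Pi.single i (1 : F) : Fin N → F) := by
      funext j
      simp [Finset.sum_apply, Pi.single_apply]
    conv_lhs => rw [h1]
    rw [map_sum]
    simp only [map_smul, smul_eq_mul, dotProduct, ha]
    exact Finset.sum_congr rfl (fun i _ => mul_comm _ _)
  have hu : IsUnit B.det := isUnit_iff_ne_zero.mpr hB
  intro hbot
  have hmem : a ᵥ* B⁻¹ ∈ orth B W := by
    intro w hw
    unfold bil
    rw [dotProduct_mulVec, vecMul_vecMul, nonsing_inv_mul _ hu, vecMul_one, ← hφa]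
    exact hle hw
  rw [hbot, Submodule.mem_bot] at hmem
  have h2 : a = 0 := by
    have h3 : a ᵥ* B⁻¹ ᵥ* B = 0 := by rw [hmem, zero_vecMul]
    rwa [vecMul_vecMul, nonsing_inv_mul _ hu, vecMul_one] at h3
  apply hφ
  ext y
  simp [hφa, h2]

end mat

/-- task BADRED -/
theorem t : S_BADRED := by
  intro ℓ _ N G _ _ _ _ ρ hρ B hBt hB hiso U W hU hWU hWbot hWtop σ Q hQc hQ hQ1 hdist
  set f : Module.End ℚ_[ℓ] (Fin N → ℚ_[ℓ]) := toLin' (ρ σ) with hf
  have hfa : ∀ x, f x = ρ σ *ᵥ x := fun x => toLin'_apply _ _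
  have hfc : f.charpoly = (X - 1) * Q := by
    rw [hf, Matrix.charpoly_toLin', hQc]
  obtain ⟨hker, hcase⟩ := two_cases f Q hQ hQ1 hfc
  -- a power in `U`
  obtain ⟨k, hk, hkU⟩ : ∃ k : ℕ, 0 < k ∧ σ ^ k ∈ U := by
    have : Finite (G ⧸ U) := U.quotient_finite_of_isOpen hU
    have hidx : U.index ≠ 0 := Subgroup.index_ne_zero_of_finite
    obtain ⟨n, hn, _, hmem⟩ := Subgroup.exists_pow_mem_of_index_ne_zero hidx σ
    exact ⟨n, hn, hmem⟩
  have hpow : ∀ x, (f ^ k) x = ρ (σ ^ k) *ᵥ x := by
    intro x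
    rw [map_pow, hf, ← toLin'_pow, toLin'_apply]
  obtain ⟨P, hP⟩ := exists_poly Q hQ hQ1 k (fun x y hx hy hxy => by
    rw [← hQc] at hx hy
    exact hdist k hk x y hx hy hxy)
  rw [← hfc] at hP
  have hstabU : ∀ S : Submodule ℚ_[ℓ] (Fin N → ℚ_[ℓ]), (∀ τ ∈ U, ∀ w ∈ S, ρ τ *ᵥ w ∈ S) →
      ∀ w ∈ S, f w ∈ S := by
    intro S hS
    apply stable_of_pow f S k _ P hP
    intro w hw
    rw [hpow]
    exact hS _ hkU w hw
  have hinv : ∀ (τ : G) (x : Fin N → ℚ_[ℓ]), ρ τ *ᵥ (ρ τ⁻¹ *ᵥ x) = x := by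
    intro τ x
    rw [mulVec_mulVec, ← map_mul, mul_inv_cancel, map_one, one_mulVec]
  -- a nonzero stable subspace inside the kernel of `f - 1`
  obtain ⟨W1, hW1U, hW1bot, hW1ker⟩ : ∃ W1 : Submodule ℚ_[ℓ] (Fin N → ℚ_[ℓ]),
      (∀ τ ∈ U, ∀ w ∈ W1, ρ τ *ᵥ w ∈ W1) ∧ W1 ≠ ⊥ ∧ W1 ≤ LinearMap.ker (f - 1) := by
    by_cases hle : W ≤ LinearMap.ker (f - 1)
    · exact ⟨W, hWU, hWbot, hle⟩
    · have hr := hcase W (hstabU W hWU) hle
      refine ⟨orth B W, ?_, orth_ne_bot B hB W hWtop, ?_⟩
      · intro τ hτ x hx w hw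
        have h1 : bil B (ρ τ *ᵥ x) (ρ τ *ᵥ (ρ τ⁻¹ *ᵥ w)) = bil B x (ρ τ⁻¹ *ᵥ w) :=
          bil_isom B _ (hiso τ) _ _
        rw [hinv] at h1
        rw [h1]
        exact hx _ (hWU _ (U.inv_mem hτ) w hw)
      · intro x hx
        rw [LinearMap.mem_ker, LinearMap.sub_apply, Module.End.one_apply, sub_eq_zero, hfa]
        have h2 : ρ σ⁻¹ *ᵥ x - x = 0 := by
          apply bil_nondeg B hB
          intro y
          have h3 : bil B x ((f - 1) y) = 0 := hx _ (hr ⟨y, rfl⟩)
          rw [LinearMap.sub_apply, Module.End.one_apply, hfa, bil_sub_right] at h3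
          rw [bil_sub_left, ← h3]
          congr 1
          have h4 := bil_isom B _ (hiso σ) (ρ σ⁻¹ *ᵥ x) y
          rw [hinv] at h4
          exact h4.symm
        have h5 := sub_eq_zero.mp h2
        conv_lhs => rw [← h5]
        exact hinv σ x
  obtain ⟨v, hvW, hv0⟩ := (Submodule.ne_bot_iff _).mp hW1bot
  have hvker := hW1ker hvW
  have hline : ∀ w ∈ LinearMap.ker (f - 1), ∃ a : ℚ_[ℓ], w = a • v := by
    intro w hw
    have h1 : Module.finrank ℚ_[ℓ] (LinearMap.ker (f - 1)) = 1 := by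
      have h2 : 0 < Module.finrank ℚ_[ℓ] (LinearMap.ker (f - 1)) := by
        rw [Module.finrank_pos_iff]
        exact ⟨⟨v, hvker⟩, 0, fun h => hv0 (congrArg Subtype.val h)⟩
      omega
    have h3 : (⟨v, hvker⟩ : LinearMap.ker (f - 1)) ≠ 0 :=
      fun h => hv0 (congrArg Subtype.val h)
    obtain ⟨a, ha⟩ := exists_smul_eq_of_finrank_eq_one h1 h3 ⟨w, hw⟩
    exact ⟨a, (congrArg Subtype.val ha).symm⟩
  have hfv : ρ σ *ᵥ v = v := by
    have h1 : (f - 1) v = 0 := hvker
    rw [LinearMap.sub_apply, Module.End.one_apply, sub_eq_zero, hfa] at h1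
    exact h1
  -- `v` is anisotropic
  have hvv : bil B v v ≠ 0 := by
    intro h0
    apply hv0
    apply bil_nondeg B hB
    intro y
    -- decompose `y`
    have hortho : ∀ z, bil B v ((f - 1) z) = 0 := by
      intro z
      rw [LinearMap.sub_apply, Module.End.one_apply, hfa, bil_sub_right]
      have h4 := bil_isom B _ (hiso σ) v z
      rw [hfv] at h4
      rw [h4, sub_self]
    have hdecomp : ∃ z : Fin N → ℚ_[ℓ], ∃ w ∈ LinearMap.ker (f - 1), y = (f - 1) z + w := by
      have hcop : IsCoprime (X - 1 : ℚ_[ℓ][X]) Q := by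
        have hirr : Irreducible (X - C (1 : ℚ_[ℓ])) := irreducible_X_sub_C 1
        rw [C_1] at hirr
        rw [hirr.coprime_iff_not_dvd]
        intro h
        rw [← C_1, dvd_iff_isRoot] at h
        exact hQ1 h
      obtain ⟨a, b, hab⟩ := hcop
      refine ⟨aeval f a y, aeval f (b * Q) y, ?_, ?_⟩
      · have h5 : aeval f ((X - 1) * (b * Q)) = 0 := by
          have : (X - 1) * (b * Q) = b * f.charpoly := by rw [hfc]; ring
          rw [this, map_mul, LinearMap.aeval_self_charpoly, mul_zero]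
        rw [map_mul, map_sub, aeval_X, map_one] at h5
        rw [LinearMap.mem_ker]
        have h6 := congrArg (fun φ : Module.End ℚ_[ℓ] (Fin N → ℚ_[ℓ]) => φ y) h5
        exact h6
      · have h7 : aeval f ((X - 1) * a + b * Q) y = y := by
          have : (X - 1) * a + b * Q = 1 := by rw [mul_comm (X - 1) a, hab]
          rw [this, map_one]; rfl
        rw [map_add, LinearMap.add_apply, map_mul, map_sub, aeval_X, map_one,
          Module.End.mul_apply] at h7
        exact h7.symm
    obtain ⟨z, w, hw, hy⟩ := hdecomp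
    obtain ⟨a, ha⟩ := hline w hw
    have h8 : bil B v y = bil B v ((f - 1) z) + bil B v w := by
      rw [hy]; unfold bil; rw [mulVec_add, dotProduct_add]
    rw [h8, hortho, zero_add, ha]
    have h9 := bil_smul B 1 a v v
    rw [one_smul, h0, mul_zero] at h9
    exact h9
  -- `U` acts on the line by signs
  have hsign : ∀ τ ∈ U, ρ τ *ᵥ v = v ∨ ρ τ *ᵥ v = -v := by
    intro τ hτ
    obtain ⟨a, ha⟩ := hline _ (hW1ker (hW1U τ hτ v hvW))
    have h1 := bil_isom B _ (hiso τ) v v
    rw [ha, bil_smul] at h1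
    have h2 : a * a = 1 := mul_right_cancel₀ hvv (by rw [h1, one_mul])
    rcases mul_self_eq_one_iff.mp h2 with h3 | h3
    · left; rw [ha, h3, one_smul]
    · right; rw [ha, h3, neg_smul, one_smul]
  have hvneg : v ≠ -v := by
    intro h
    have h1 : (2 : ℚ_[ℓ]) • v = 0 := by
      rw [two_smul]
      nth_rewrite 2 [h]
      exact add_neg_cancel v
    rcases smul_eq_zero.mp h1 with h2 | h2
    · exact two_ne_zero h2
    · exact hv0 h2
  let U' : Subgroup G :=
    { carrier := {τ | τ ∈ U ∧ ρ τ *ᵥ v = v}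
      mul_mem' := by
        rintro a b ⟨ha, hav⟩ ⟨hb, hbv⟩
        refine ⟨U.mul_mem ha hb, ?_⟩
        rw [map_mul, ← mulVec_mulVec, hbv, hav]
      one_mem' := ⟨U.one_mem, by rw [map_one, one_mulVec]⟩
      inv_mem' := by
        rintro a ⟨ha, hav⟩
        refine ⟨U.inv_mem ha, ?_⟩
        conv_lhs => rw [← hav]
        rw [mulVec_mulVec, ← map_mul, inv_mul_cancel, map_one, one_mulVec] }
  have hU'open : IsOpen (U' : Set G) := by
    have h1 : (U' : Set G) = (U : Set G) ∩ {τ | ρ τ *ᵥ v ≠ -v} := by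
      ext τ
      constructor
      · rintro ⟨h2, h3⟩
        refine ⟨h2, ?_⟩
        show ρ τ *ᵥ v ≠ -v
        rw [h3]; exact hvneg
      · rintro ⟨h2, h3⟩
        refine ⟨h2, ?_⟩
        rcases hsign τ h2 with h4 | h4
        · exact h4
        · exact absurd h4 h3
    rw [h1]
    apply hU.inter
    have hc : Continuous fun τ : G => ρ τ *ᵥ v := hρ.matrix_mulVec continuous_const
    exact isOpen_ne.preimage hc
  refine ⟨U', ⊥, Submodule.span ℚ_[ℓ] {v}, hU'open, ?_, ?_⟩
  · rw [bot_lt_iff_ne_bot]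
    intro h
    rw [Submodule.span_singleton_eq_bot] at h
    exact hv0 h
  · intro τ hτ w hw
    obtain ⟨a, rfl⟩ := Submodule.mem_span_singleton.mp hw
    rw [Submodule.mem_bot, mulVec_smul, hτ.2, sub_self]

end Pool.Agent.Y379.ZI
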